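import Pool.Agent.Q215.GB.Fwd
import Pool.Agent.Q215.GB.Weak

/-!
# Sequential limits at limit levels of cofinality less than `λ`

`λ` is an uncountable regular cardinal with `2^{<λ} = λ`, and `ξ < λ⁺` is a limit ordinal with
`cof(ξ) < λ`. For all subspaces `X`, `Y` of the generalized Baire space of `λ`:

* every function in `M_{ξ+1}(X, Y)` is a `λ`-limit of (eventually constant) `cof(ξ)`-limits of
  functions in `M_{<ξ}(X, Y)`: the weaker inclusion of the second question holds;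
* the `λ`-limits of the functions in `\widehat{lim}^ξ_{cof(ξ)} M_{<ξ}(X, Y)` are exactly the functions
  in `M_ξ(X, Y)`, so the equality of the second question holds only if `M_{ξ+1}(X, Y) = M_ξ(X, Y)`;
* it fails if `X` is the whole space and `Y` has at least two points.
-/

set_option autoImplicit false

open Set Topology Filter Cardinal
open Pool.Agent.Results.MP_f4bae3_lc.SequentialLimits
open Pool.Agent.Q215.GB

namespace Pool.Agent.Results.MP_f4bae3_lc.LimitLevelsOfBaireClasses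

/-- `f` is in `lim_κ M_{<ξ}(X, Y)`, with approximating functions which are eventually equal to `f` at
every point -/
def SeqLim {X Y : Type} [TopologicalSpace X] [TopologicalSpace Y] (lam κ : Cardinal.{0})
    (ξ : Ordinal.{0}) (f : X → Y) : Prop :=
  ∃ G : κ.ord.ToType → X → Y, (∀ i, MeasLt lam ξ (G i)) ∧
    (∀ x, Tendsto (fun i => G i x) atTop (𝓝 (f x))) ∧ ∀ x, ∃ i, ∀ j, i ≤ j → G j x = f x

/-- **The second question.** (1) `M_{ξ+1}(X, Y) ⊆ lim_λ (lim_{cof ξ} M_{<ξ}(X, Y))`. (2)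
`lim_λ (\widehat{lim}^ξ_{cof ξ} M_{<ξ}(X, Y)) = M_ξ(X, Y)`. (3) If `X` is the generalized Baire space and
`Y` has at least two points, then some function in `M_{ξ+1}(X, Y)` is not in
`lim_λ (\widehat{lim}^ξ_{cof ξ} M_{<ξ}(X, Y))`. -/
theorem result (lam : Cardinal.{0}) (h0 : ℵ₀ < lam) (hreg : lam.IsRegular)
    (hpow : 2 ^< lam = lam) (ξ : Ordinal.{0}) (hlim : Order.IsSuccLimit ξ)
    (hξ : ξ < (Order.succ lam).ord) (hcof : ξ.cof < lam) :
    (∀ (X Y : Set (GSpace lam)) (f : X → Y), Meas lam (ξ + 1) f →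
      LamLim lam (SeqLim lam ξ.cof ξ) f) ∧
    (∀ (X Y : Set (GSpace lam)) (f : X → Y),
      LamLim lam (HatLim lam ξ.cof ξ) f ↔ Meas lam ξ f) ∧
    ∀ Y : Set (GSpace lam), Y.Nontrivial → ∃ f : ↥(Set.univ : Set (GSpace lam)) → Y,
      Meas lam (ξ + 1) f ∧ ¬ LamLim lam (HatLim lam ξ.cof ξ) f := by
  refine ⟨fun X Y f hf => ?_, fun X Y f => ⟨fwd h0 hreg hpow hlim hcof, bwd h0 hreg hpow hlim⟩,
    fun Y hY => ?_⟩
  · obtain ⟨F, hF, hlimF⟩ := weak h0 hreg hpow hlim hcof hf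
    refine ⟨F, fun a => ?_, hlimF⟩
    obtain ⟨G, hG, hev⟩ := hF a
    refine ⟨G, hG, fun x => ?_, hev⟩
    obtain ⟨i, hi⟩ := hev x
    refine tendsto_const_nhds.congr' ?_
    obtain ⟨e, -, -, -, he4⟩ := exists_seq hlim
    obtain ⟨k0, -⟩ := he4 1 (one_lt_limit hlim)
    have hne : Nonempty ξ.cof.ord.ToType := ⟨k0⟩
    filter_upwards [eventually_ge_atTop i] with j hj
    exact (hi j hj).symm
  · obtain ⟨f, hf1, hf2⟩ := exists_not_meas h0 hreg hpow (one_lt_limit hlim).le hξ hY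
    exact ⟨f, hf1, fun h => hf2 (fwd h0 hreg hpow hlim hcof h)⟩

end Pool.Agent.Results.MP_f4bae3_lc.LimitLevelsOfBaireClasses
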