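import Mathlib

/-!
For an uncountable regular `λ` with `2^{<λ} = λ`, the `λ⁺`-Borel measurable functions between
subspaces of the generalized Baire space are exactly the closure of the continuous functions
under `κ`-limits for regular `κ ≤ λ`.
-/

open Set Topology Filter Cardinal

namespace Pool.Agent.Results.MP_f4bae3_lc.SequentialLimits

/-- The points of the generalized Baire space of `lam`. -/
def GSpace (lam : Cardinal.{0}) : Type := lam.ord.ToType → lam.ord.ToType

/-- The basic open set of the points agreeing with `x` below `a`. -/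
def N {lam : Cardinal.{0}} (x : GSpace lam) (a : lam.ord.ToType) : Set (GSpace lam) :=
  {y | ∀ b, b < a → y b = x b}

/-- The bounded topology. -/
instance (lam : Cardinal.{0}) : TopologicalSpace (GSpace lam) :=
  TopologicalSpace.generateFrom {U | ∃ x a, U = N x a}

/-- The classes `Σ⁰_ξ` of subsets of a space, for `ξ ≥ 1`. -/
inductive SigmaClass (lam : Cardinal.{0}) {X : Type} [TopologicalSpace X] :
    Ordinal.{0} → Set X → Prop
  | base (U : Set X) (hU : IsOpen U) : SigmaClass lam 1 U
  | union (ξ : Ordinal.{0}) (hξ : 1 < ξ) (I : Type) (hI : #I ≤ lam) (η : I → Ordinal.{0})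
      (A : I → Set X) (h1 : ∀ i, 1 ≤ η i) (h2 : ∀ i, η i < ξ)
      (hA : ∀ i, SigmaClass lam (η i) (A i)ᶜ) : SigmaClass lam ξ (⋃ i, A i)

/-- The `λ⁺`-Borel sets. -/
def LamBorel (lam : Cardinal.{0}) {X : Type} [TopologicalSpace X] (A : Set X) : Prop :=
  ∃ ξ : Ordinal.{0}, 1 ≤ ξ ∧ ξ < (Order.succ lam).ord ∧ SigmaClass lam ξ A

/-- The smallest class of functions containing the continuous functions and closed under
`κ`-limits for all regular `κ ≤ λ`. -/
inductive LimClass (lam : Cardinal.{0}) {X Y : Type} [TopologicalSpace X]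
    [TopologicalSpace Y] : (X → Y) → Prop
  | cont (f : X → Y) (hf : Continuous f) : LimClass lam f
  | lim (κ : Cardinal.{0}) (hκ : κ.IsRegular) (hle : κ ≤ lam) (F : κ.ord.ToType → X → Y)
      (f : X → Y) (hF : ∀ i, LimClass lam (F i))
      (hlim : ∀ x, Tendsto (fun i => F i x) atTop (𝓝 (f x))) : LimClass lam f

/-! ### The space -/

section Space

variable {lam : Cardinal.{0}}

lemma mem_N_self (x : GSpace lam) (a : lam.ord.ToType) : x ∈ N x a := fun _ _ => rfl

lemma N_eq {x y : GSpace lam} {a : lam.ord.ToType} (h : y ∈ N x a) : N y a = N x a := by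
  ext z
  constructor
  · intro hz b hb
    rw [hz b hb, h b hb]
  · intro hz b hb
    rw [hz b hb, h b hb]

lemma N_anti (x : GSpace lam) {a b : lam.ord.ToType} (h : a ≤ b) : N x b ⊆ N x a :=
  fun _ hy c hc => hy c (lt_of_lt_of_le hc h)

lemma isOpen_N (x : GSpace lam) (a : lam.ord.ToType) : IsOpen (N x a) :=
  TopologicalSpace.isOpen_generateFrom_of_mem ⟨x, a, rfl⟩

lemma isClosed_N (x : GSpace lam) (a : lam.ord.ToType) : IsClosed (N x a) := by
  rw [← isOpen_compl_iff]
  have : (N x a)ᶜ = ⋃ y ∈ (N x a)ᶜ, N y a := by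
    ext z
    simp only [mem_iUnion, exists_prop]
    constructor
    · intro hz
      exact ⟨z, hz, mem_N_self z a⟩
    · rintro ⟨y, hy, hz⟩ hzx
      apply hy
      rw [← N_eq hzx, N_eq hz]
      exact mem_N_self y a
  rw [this]
  exact isOpen_biUnion fun y _ => isOpen_N y a

lemma basis (hne : Nonempty lam.ord.ToType) {U : Set (GSpace lam)} (hU : IsOpen U) :
    ∀ x ∈ U, ∃ a, N x a ⊆ U := by
  have hU' : TopologicalSpace.GenerateOpen {U | ∃ x a, U = N (lam := lam) x a} U := hU
  induction hU' with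
  | basic U h =>
    obtain ⟨z, a, rfl⟩ := h
    intro x hx
    exact ⟨a, (N_eq hx).subset⟩
  | univ => intro x _; exact ⟨hne.some, subset_univ _⟩
  | inter U V hU' hV' ihU ihV =>
    intro x hx
    obtain ⟨a, ha⟩ := ihU hU' x hx.1
    obtain ⟨b, hb⟩ := ihV hV' x hx.2
    exact ⟨max a b, subset_inter ((N_anti x (le_max_left _ _)).trans ha)
      ((N_anti x (le_max_right _ _)).trans hb)⟩
  | sUnion S hS ih =>
    rintro x ⟨U, hU, hx⟩
    obtain ⟨a, ha⟩ := ih U hU (hS U hU) x hx
    exact ⟨a, ha.trans (subset_sUnion_of_mem hU)⟩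

end Space

/-! ### Cardinal arithmetic -/

section Card

variable {lam : Cardinal.{0}}

lemma power_le (h0 : ℵ₀ < lam) (hpow : 2 ^< lam = lam) {μ ν : Cardinal.{0}} (hμ : μ < lam)
    (hν : ν < lam) : μ ^ ν ≤ lam := by
  calc μ ^ ν ≤ (2 ^ μ) ^ ν := Cardinal.power_le_power_right (Cardinal.cantor μ).le
    _ = 2 ^ (μ * ν) := (Cardinal.power_mul).symm
    _ ≤ 2 ^< lam := Cardinal.le_powerlt _ (Cardinal.mul_lt_of_lt h0.le hμ hν)
    _ = lam := hpow

lemma card_functions (h0 : ℵ₀ < lam) (hreg : lam.IsRegular) (hpow : 2 ^< lam = lam)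
    (a : lam.ord.ToType) : #(Iio a → lam.ord.ToType) ≤ lam := by
  have hbound : ∀ g : Iio a → lam.ord.ToType, ∃ c, ∀ b, g b < c := by
    intro g
    by_contra hcon
    push Not at hcon
    have hcof : IsCofinal (range g) := fun c => by
      obtain ⟨b, hb⟩ := hcon c
      exact ⟨g b, ⟨b, rfl⟩, hb⟩
    have h1 : lam ≤ #(range g) := by
      have := Order.cof_le hcof
      rwa [Ordinal.cof_toType, hreg.cof_ord] at this
    have h2 : #(range g) ≤ #(Iio a) := Cardinal.mk_range_le
    exact absurd (h1.trans h2) (not_le.2 (Cardinal.mk_Iio_toType_ord_lt a))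
  choose c hc using hbound
  let φ : (Iio a → lam.ord.ToType) → Σ d : lam.ord.ToType, (Iio a → Iio d) :=
    fun g => ⟨c g, fun b => ⟨g b, hc g b⟩⟩
  have hφ : Function.Injective φ := by
    have hinv : ∀ g, (fun b => ((φ g).2 b : lam.ord.ToType)) = g := fun g => rfl
    intro g g' h
    rw [← hinv g, h, hinv g']
  calc #(Iio a → lam.ord.ToType) ≤ #(Σ d : lam.ord.ToType, (Iio a → Iio d)) :=
        Cardinal.mk_le_of_injective hφ
    _ = Cardinal.sum fun d : lam.ord.ToType => #(Iio a → Iio d) := Cardinal.mk_sigma _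
    _ ≤ Cardinal.sum fun _ : lam.ord.ToType => lam := by
        apply Cardinal.sum_le_sum
        intro d
        have : #(Iio a → Iio d) = #(Iio d) ^ #(Iio a) := by
          rw [Cardinal.power_def]
        rw [this]
        exact power_le h0 hpow (Cardinal.mk_Iio_toType_ord_lt d)
          (Cardinal.mk_Iio_toType_ord_lt a)
    _ = lam * lam := by
        rw [Cardinal.sum_const]; simp
    _ = lam := Cardinal.mul_eq_self h0.le

end Card

/-! ### The Borel sets -/

section BorelSets

variable {lam : Cardinal.{0}} {X : Type} [TopologicalSpace X]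

lemma succ_limit (h0 : ℵ₀ < lam) : Order.IsSuccLimit (Order.succ lam).ord :=
  Cardinal.isSuccLimit_ord (h0.le.trans (Order.le_succ lam))

lemma SigmaClass.one_le {ξ : Ordinal.{0}} {A : Set X} (h : SigmaClass lam ξ A) : 1 ≤ ξ := by
  cases h with
  | base => exact le_rfl
  | union _ hξ => exact hξ.le

lemma SigmaClass.compl (h0 : ℵ₀ < lam) {ξ : Ordinal.{0}} {A : Set X} (h : SigmaClass lam ξ A) :
    SigmaClass lam (ξ + 1) Aᶜ := by
  have h1 := SigmaClass.union (lam := lam) (ξ + 1)
    (lt_of_le_of_lt h.one_le (lt_add_one ξ)) PUnit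
    (by rw [Cardinal.mk_punit]; exact (Cardinal.one_lt_aleph0.trans h0).le)
    (fun _ => ξ) (fun _ => Aᶜ) (fun _ => h.one_le) (fun _ => lt_add_one ξ)
    (fun _ => by rw [compl_compl]; exact h)
  rwa [iUnion_const] at h1

lemma LamBorel.compl (h0 : ℵ₀ < lam) {A : Set X} (h : LamBorel lam A) : LamBorel lam Aᶜ := by
  obtain ⟨ξ, h1, h2, h3⟩ := h
  exact ⟨ξ + 1, h1.trans le_self_add, (succ_limit h0).add_one_lt h2, h3.compl h0⟩

lemma LamBorel.iUnion (h0 : ℵ₀ < lam) {I : Type} (hI : #I ≤ lam) {A : I → Set X}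
    (h : ∀ i, LamBorel lam (A i)) : LamBorel lam (⋃ i, A i) := by
  choose ξ h1 h2 h3 using h
  have hcof : #I < (Order.succ lam).ord.cof := by
    rw [(Cardinal.isRegular_succ h0.le).cof_ord]
    exact Order.lt_succ_of_le hI
  have hsup : ⨆ i, (ξ i + 1) < (Order.succ lam).ord :=
    Ordinal.iSup_lt_of_lt_cof hcof fun i => (succ_limit h0).add_one_lt (h2 i)
  have hlt : (⨆ i, (ξ i + 1)) + 1 + 1 < (Order.succ lam).ord :=
    (succ_limit h0).add_one_lt ((succ_limit h0).add_one_lt hsup)
  have hone : (1 : Ordinal.{0}) < (⨆ i, (ξ i + 1)) + 1 + 1 := by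
    have : (1 : Ordinal.{0}) ≤ (⨆ i, (ξ i + 1)) + 1 := by
      calc (1 : Ordinal.{0}) = 0 + 1 := (zero_add 1).symm
        _ ≤ (⨆ i, (ξ i + 1)) + 1 := by gcongr; exact zero_le
    exact lt_of_le_of_lt this (lt_add_one _)
  refine ⟨(⨆ i, (ξ i + 1)) + 1 + 1, hone.le, hlt, ?_⟩
  refine SigmaClass.union _ hone I hI (fun i => ξ i + 1) A
    (fun i => (h1 i).trans le_self_add) (fun i => ?_) (fun i => (h3 i).compl h0)
  have h4 : ξ i + 1 ≤ ⨆ i, (ξ i + 1) := Ordinal.le_iSup (fun i => ξ i + 1) i
  exact lt_of_le_of_lt h4 ((lt_add_one _).trans (lt_add_one _))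

lemma LamBorel.iInter (h0 : ℵ₀ < lam) {I : Type} (hI : #I ≤ lam) {A : I → Set X}
    (h : ∀ i, LamBorel lam (A i)) : LamBorel lam (⋂ i, A i) := by
  have := (LamBorel.iUnion h0 hI fun i => (h i).compl h0).compl h0
  rwa [compl_iUnion, iInter_congr fun i => compl_compl (A i)] at this

lemma LamBorel.of_isOpen (h0 : ℵ₀ < lam) {U : Set X} (hU : IsOpen U) : LamBorel lam U :=
  ⟨1, le_rfl, by
    have h1 : (1 : Ordinal.{0}) = 0 + 1 := (zero_add 1).symm
    rw [h1]
    refine (succ_limit h0).add_one_lt ?_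
    exact (succ_limit h0).bot_lt, SigmaClass.base U hU⟩

end BorelSets

/-! ### Clopen pieces of open sets -/

section Pieces

variable {lam : Cardinal.{0}}

/-- the basic set given by a restriction. -/
def Bs (p : Σ a : lam.ord.ToType, (Iio a → lam.ord.ToType)) : Set (GSpace lam) :=
  {y | ∀ b : Iio p.1, y b = p.2 b}

lemma exists_N (p : Σ a : lam.ord.ToType, (Iio a → lam.ord.ToType)) :
    ∃ x : GSpace lam, Bs p = N x p.1 := by
  classical
  refine ⟨fun b => if h : b < p.1 then p.2 ⟨b, h⟩ else p.1, ?_⟩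
  ext y
  constructor
  · intro hy b hb
    show y b = if h : b < p.1 then p.2 ⟨b, h⟩ else p.1
    rw [dif_pos hb]
    exact hy ⟨b, hb⟩
  · intro hy b
    have := hy b.1 b.2
    rw [this]
    exact dif_pos (show b.1 < p.1 from b.2)

lemma card_sigma (h0 : ℵ₀ < lam) (hreg : lam.IsRegular) (hpow : 2 ^< lam = lam) :
    #(Σ a : lam.ord.ToType, (Iio a → lam.ord.ToType)) ≤ lam := by
  calc #(Σ a : lam.ord.ToType, (Iio a → lam.ord.ToType)) =
        Cardinal.sum fun a : lam.ord.ToType => #(Iio a → lam.ord.ToType) := Cardinal.mk_sigma _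
    _ ≤ Cardinal.sum fun _ : lam.ord.ToType => lam :=
        Cardinal.sum_le_sum _ _ fun a => card_functions h0 hreg hpow a
    _ = lam * lam := by
        rw [Cardinal.sum_const]; simp
    _ = lam := Cardinal.mul_eq_self h0.le

lemma nonempty_L (h0 : ℵ₀ < lam) : Nonempty lam.ord.ToType := by
  rw [Ordinal.nonempty_toType_iff]
  intro h
  have h1 : lam = 0 := by
    have := congrArg Ordinal.card h
    simpa using this
  rw [h1] at h0
  exact absurd h0 (not_lt.2 (zero_le))

lemma pieces (h0 : ℵ₀ < lam) (hreg : lam.IsRegular) (hpow : 2 ^< lam = lam)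
    {T : Set (GSpace lam)} {U : Set T} (hU : IsOpen U) :
    ∃ J : Type, #J ≤ lam ∧ ∃ V : J → Set T, (∀ j, IsClopen (V j)) ∧ U = ⋃ j, V j := by
  obtain ⟨W, hW, rfl⟩ := isOpen_induced_iff.1 hU
  let J : Type := {p : Σ a : lam.ord.ToType, (Iio a → lam.ord.ToType) // Bs p ⊆ W}
  refine ⟨J, (Cardinal.mk_subtype_le _).trans (card_sigma h0 hreg hpow),
    fun p => Subtype.val ⁻¹' Bs p.1, ?_, ?_⟩
  · intro p
    obtain ⟨x, hx⟩ := exists_N p.1
    show IsClopen (Subtype.val ⁻¹' Bs p.1)
    rw [hx]
    exact ⟨(isClosed_N x _).preimage continuous_subtype_val,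
      (isOpen_N x _).preimage continuous_subtype_val⟩
  · ext y
    simp only [mem_iUnion]
    constructor
    · intro hy
      obtain ⟨a, ha⟩ := basis (nonempty_L h0) hW y.1 hy
      refine ⟨⟨⟨a, fun b => y.1 b⟩, ?_⟩, fun b => rfl⟩
      intro z hz
      exact ha fun b hb => hz ⟨b, hb⟩
    · rintro ⟨p, hp⟩
      exact p.2 hp

end Pieces

/-! ### Limits are Borel measurable -/

section Forward

variable {lam : Cardinal.{0}}

lemma forward (h0 : ℵ₀ < lam) (hreg : lam.IsRegular) (hpow : 2 ^< lam = lam)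
    {X Y : Set (GSpace lam)} {f : X → Y} (hf : LimClass lam f) :
    ∀ U : Set Y, IsOpen U → LamBorel lam (f ⁻¹' U) := by
  induction hf with
  | cont f hf => exact fun U hU => LamBorel.of_isOpen h0 (hU.preimage hf)
  | lim κ hκ hle F f hF hlim ih =>
    intro U hU
    have hcard : #κ.ord.ToType ≤ lam := by
      rw [Cardinal.mk_toType, Cardinal.card_ord]; exact hle
    have hne : Nonempty κ.ord.ToType := by
      rw [Ordinal.nonempty_toType_iff]
      exact hκ.ord_pos.ne'
    obtain ⟨J, hJ, V, hV, rfl⟩ := pieces h0 hreg hpow hU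
    rw [preimage_iUnion]
    refine LamBorel.iUnion h0 hJ fun j => ?_
    have e : f ⁻¹' (V j) = ⋃ i, ⋂ k : Ici i, F k.1 ⁻¹' (V j) := by
      ext x
      simp only [mem_iUnion, mem_iInter]
      constructor
      · intro hx
        have := (hlim x).eventually ((hV j).isOpen.mem_nhds hx)
        obtain ⟨i, hi⟩ := eventually_atTop.1 this
        exact ⟨i, fun k => hi k.1 k.2⟩
      · rintro ⟨i, hi⟩
        refine (hV j).isClosed.mem_of_tendsto (hlim x) ?_
        filter_upwards [eventually_ge_atTop i] with k hk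
        exact hi ⟨k, hk⟩
    rw [e]
    refine LamBorel.iUnion h0 hcard fun i => LamBorel.iInter h0
      ((Cardinal.mk_subtype_le _).trans hcard) fun k => ?_
    exact ih k.1 (V j) (hV j).isOpen

end Forward

/-! ### Limits along well-orders -/

section WellOrder

variable {lam : Cardinal.{0}}

lemma exists_cofinal (α : Type) [LinearOrder α] [WellFoundedLT α] [Nonempty α] [NoMaxOrder α]
    (h : #α ≤ lam) : ∃ κ : Cardinal.{0}, κ.IsRegular ∧ κ ≤ lam ∧
      ∃ φ : κ.ord.ToType → α, Tendsto φ atTop atTop := by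
  refine ⟨Order.cof α, ⟨Order.aleph0_le_cof, (Order.cof_ord_cof α).ge⟩,
    (Order.cof_le_cardinalMk α).trans h, ?_⟩
  obtain ⟨s, hs, hs'⟩ := Ordinal.exists_ord_cof_eq α
  have hty : (Ordinal.type fun x1 x2 : s => x1 < x2) =
      Ordinal.type fun x1 x2 : (Order.cof α).ord.ToType => x1 < x2 := by
    rw [hs', Ordinal.type_toType]
  obtain ⟨iso⟩ := Ordinal.type_eq.1 hty
  refine ⟨fun i => (iso.symm i : α), tendsto_atTop.2 fun b => ?_⟩
  obtain ⟨x, hx, hbx⟩ := hs b
  filter_upwards [eventually_ge_atTop (iso ⟨x, hx⟩)] with i hi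
  have h1 : (⟨x, hx⟩ : s) ≤ iso.symm i := by
    rcases hi.lt_or_eq with h | h
    · have := iso.symm.map_rel_iff.2 h
      rw [RelIso.symm_apply_apply] at this
      exact this.le
    · rw [← h, RelIso.symm_apply_apply]
  exact hbx.trans h1

variable {X Y : Type} [TopologicalSpace X] [TopologicalSpace Y]

lemma limit_wo {α : Type} [LinearOrder α] [WellFoundedLT α] [Nonempty α] [NoMaxOrder α]
    (h : #α ≤ lam) {F : α → X → Y} (hF : ∀ i, LimClass lam (F i)) {f : X → Y}
    (hlim : ∀ x, Tendsto (fun i => F i x) atTop (𝓝 (f x))) : LimClass lam f := by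
  obtain ⟨κ, hκ, hle, φ, hφ⟩ := exists_cofinal α h
  exact LimClass.lim κ hκ hle (fun i => F (φ i)) f (fun i => hF _)
    (fun x => (hlim x).comp hφ)

lemma scheme (h0 : ℵ₀ < lam) (P : Set lam.ord.ToType → Prop) (hempty : P ∅)
    (hs : ∀ j, P (Iio j) → P (Iic j))
    (hl : ∀ D : Set lam.ord.ToType, D.Nonempty → (∀ x ∈ D, ∀ y, y ≤ x → y ∈ D) →
      (∀ x ∈ D, ∃ y ∈ D, x < y) → (∀ j ∈ D, P (Iic j)) → P D) : P univ := by
  have key : ∀ j : lam.ord.ToType, P (Iio j) := by
    intro j
    induction j using WellFoundedLT.induction with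
    | ind j ih =>
      rcases (Iio j).eq_empty_or_nonempty with h | h
      · rw [h]; exact hempty
      · by_cases hmax : ∃ b, b < j ∧ ∀ c, c < j → c ≤ b
        · obtain ⟨b, hb, hb'⟩ := hmax
          have e : Iio j = Iic b := by
            ext c
            exact ⟨fun hc => hb' c hc, fun hc => lt_of_le_of_lt hc hb⟩
          rw [e]
          exact hs b (ih b hb)
        · push Not at hmax
          refine hl _ h (fun x hx y hy => lt_of_le_of_lt hy hx) (fun x hx => ?_)
            (fun i hi => hs i (ih i hi))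
          exact hmax x hx
  have hne := nonempty_L h0
  have hnm : NoMaxOrder lam.ord.ToType := Cardinal.noMaxOrder h0.le
  refine hl univ univ_nonempty (fun _ _ _ _ => mem_univ _) (fun x _ => ?_)
    (fun j _ => hs j (key j))
  obtain ⟨y, hy⟩ := exists_gt x
  exact ⟨y, mem_univ _, hy⟩

/-- limits along a lower set without maximum. -/
lemma limit_lower {D : Set lam.ord.ToType} (hne : D.Nonempty)
    (hmax : ∀ x ∈ D, ∃ y ∈ D, x < y) {F : lam.ord.ToType → X → Y}
    (hF : ∀ i ∈ D, LimClass lam (F i)) {f : X → Y}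
    (hlim : ∀ x, (∃ i ∈ D, ∀ j ∈ D, i ≤ j → F j x = f x)) : LimClass lam f := by
  have h1 : Nonempty D := hne.to_subtype
  have h2 : NoMaxOrder D := ⟨fun a => by
    obtain ⟨y, hy, hlt⟩ := hmax a.1 a.2
    exact ⟨⟨y, hy⟩, hlt⟩⟩
  have hcard : #D ≤ lam := by
    refine (Cardinal.mk_subtype_le _).trans ?_
    rw [Cardinal.mk_toType, Cardinal.card_ord]
  refine limit_wo (α := D) hcard (F := fun i => F i) (fun i => hF i.1 i.2) fun x => ?_
  obtain ⟨i, hi, hij⟩ := hlim x
  refine tendsto_const_nhds.congr' ?_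
  filter_upwards [eventually_ge_atTop (⟨i, hi⟩ : D)] with j hj
  exact (hij j.1 j.2 hj).symm

end WellOrder

/-! ### Gluing -/

section Mix

variable {lam : Cardinal.{0}} {X Y : Type} [TopologicalSpace X] [TopologicalSpace Y]

open Classical in
/-- the function equal to `g` on `A` and to `h` off `A`. -/
noncomputable def mix (A : Set X) (g h : X → Y) : X → Y := fun x => if x ∈ A then g x else h x

lemma mix_of_mem {A : Set X} {g h : X → Y} {x : X} (hx : x ∈ A) : mix A g h x = g x := if_pos hx

lemma mix_of_notMem {A : Set X} {g h : X → Y} {x : X} (hx : x ∉ A) : mix A g h x = h x :=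
  if_neg hx

/-- the sets along which members of the class can be glued. -/
def Glue (lam : Cardinal.{0}) (Y : Type) [TopologicalSpace Y] (A : Set X) : Prop :=
  ∀ g h : X → Y, LimClass lam g → LimClass lam h → LimClass lam (mix A g h)

lemma glue_clopen {A : Set X} (hA : IsClopen A) : Glue lam Y A := by
  -- first with a continuous function on A
  have step1 : ∀ g : X → Y, Continuous g → ∀ h : X → Y, LimClass lam h →
      LimClass lam (mix A g h) := by
    intro g hg h hh
    induction hh with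
    | cont h hh =>
      refine LimClass.cont _ ?_
      rw [continuous_def]
      intro U hU
      have e : mix A g h ⁻¹' U = (A ∩ g ⁻¹' U) ∪ (Aᶜ ∩ h ⁻¹' U) := by
        ext x
        by_cases hx : x ∈ A
        · simp [mem_preimage, mix_of_mem hx, hx]
        · simp [mem_preimage, mix_of_notMem hx, hx]
      rw [e]
      exact (hA.isOpen.inter (hU.preimage hg)).union
        (hA.compl.isOpen.inter (hU.preimage hh))
    | lim κ hκ hle F f hF hlim ih =>
      refine LimClass.lim κ hκ hle (fun i => mix A g (F i)) _ ih fun x => ?_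
      by_cases hx : x ∈ A
      · simp only [mix_of_mem hx]; exact tendsto_const_nhds
      · simp only [mix_of_notMem hx]; exact hlim x
  intro g h hg hh
  induction hg with
  | cont g hg => exact step1 g hg h hh
  | lim κ hκ hle F f hF hlim ih =>
    refine LimClass.lim κ hκ hle (fun i => mix A (F i) h) _ ih fun x => ?_
    by_cases hx : x ∈ A
    · simp only [mix_of_mem hx]; exact hlim x
    · simp only [mix_of_notMem hx]; exact tendsto_const_nhds

lemma glue_empty : Glue lam Y (∅ : Set X) := by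
  intro g h _ hh
  have : mix ∅ g h = h := by
    funext x
    exact mix_of_notMem (notMem_empty x)
  rw [this]; exact hh

lemma glue_compl {A : Set X} (hA : Glue lam Y A) : Glue lam Y Aᶜ := by
  intro g h hg hh
  have : mix Aᶜ g h = mix A h g := by
    funext x
    by_cases hx : x ∈ A
    · rw [mix_of_mem hx, mix_of_notMem (show x ∉ Aᶜ from fun h' => h' hx)]
    · rw [mix_of_notMem hx, mix_of_mem (show x ∈ Aᶜ from hx)]
  rw [this]; exact hA h g hh hg

lemma glue_union {A B : Set X} (hA : Glue lam Y A) (hB : Glue lam Y B) :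
    Glue lam Y (A ∪ B) := by
  intro g h hg hh
  have : mix (A ∪ B) g h = mix A g (mix B g h) := by
    funext x
    by_cases hx : x ∈ A
    · rw [mix_of_mem hx, mix_of_mem (show x ∈ A ∪ B from Or.inl hx)]
    · rw [mix_of_notMem hx]
      by_cases hx' : x ∈ B
      · rw [mix_of_mem hx', mix_of_mem (show x ∈ A ∪ B from Or.inr hx')]
      · rw [mix_of_notMem hx', mix_of_notMem (show x ∉ A ∪ B from fun h' => h'.elim hx hx')]
  rw [this]; exact hA g _ hg (hB g h hg hh)

lemma glue_iUnion_L (h0 : ℵ₀ < lam) {A : lam.ord.ToType → Set X}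
    (hA : ∀ i, Glue lam Y (A i)) : Glue lam Y (⋃ i, A i) := by
  have key : Glue lam Y (⋃ i ∈ (univ : Set lam.ord.ToType), A i) := by
    refine scheme h0 (fun D => Glue lam Y (⋃ i ∈ D, A i)) ?_ ?_ ?_
    · have : (⋃ i ∈ (∅ : Set lam.ord.ToType), A i) = ∅ := by simp
      show Glue lam Y (⋃ i ∈ (∅ : Set lam.ord.ToType), A i)
      rw [this]; exact glue_empty
    · intro j hj
      have e : (⋃ i ∈ Iic j, A i) = (⋃ i ∈ Iio j, A i) ∪ A j := by
        ext x
        simp only [mem_iUnion, mem_Iic, mem_Iio, mem_union, exists_prop]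
        constructor
        · rintro ⟨i, hi, hx⟩
          rcases hi.lt_or_eq with h | h
          · exact Or.inl ⟨i, h, hx⟩
          · subst h; exact Or.inr hx
        · rintro (⟨i, hi, hx⟩ | hx)
          · exact ⟨i, hi.le, hx⟩
          · exact ⟨j, le_rfl, hx⟩
      show Glue lam Y (⋃ i ∈ Iic j, A i)
      rw [e]
      exact glue_union hj (hA j)
    · intro D hne hlow hmax ih g h hg hh
      refine limit_lower hne hmax (F := fun j => mix (⋃ i ∈ Iic j, A i) g h)
        (fun j hj => ih j hj g h hg hh) fun x => ?_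
      by_cases hx : x ∈ ⋃ i ∈ D, A i
      · obtain ⟨i, hi, hxi⟩ := mem_iUnion₂.1 hx
        refine ⟨i, hi, fun j _ hij => ?_⟩
        rw [mix_of_mem hx, mix_of_mem (mem_iUnion₂.2 ⟨i, hij, hxi⟩)]
      · obtain ⟨i, hi⟩ := hne
        refine ⟨i, hi, fun j hj _ => ?_⟩
        have : x ∉ ⋃ k ∈ Iic j, A k := by
          intro hc
          obtain ⟨k, hk, hxk⟩ := mem_iUnion₂.1 hc
          exact hx (mem_iUnion₂.2 ⟨k, hlow j hj k hk, hxk⟩)
        rw [mix_of_notMem hx, mix_of_notMem this]
  have e : (⋃ i, A i) = ⋃ i ∈ (univ : Set lam.ord.ToType), A i := by simp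
  rw [e]; exact key

lemma glue_iUnion (h0 : ℵ₀ < lam) {I : Type} (hI : #I ≤ lam) {A : I → Set X}
    (hA : ∀ i, Glue lam Y (A i)) : Glue lam Y (⋃ i, A i) := by
  rcases isEmpty_or_nonempty I with h | h
  · rw [iUnion_of_empty]; exact glue_empty
  · have hle : #I ≤ #(lam.ord.ToType) := by
      rw [Cardinal.mk_toType, Cardinal.card_ord]; exact hI
    obtain ⟨φ, hφ⟩ : ∃ φ : lam.ord.ToType → I, Function.Surjective φ := by
      obtain ⟨ψ⟩ := hle
      exact ⟨Function.invFun ψ, Function.invFun_surjective ψ.injective⟩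
    rw [← hφ.iUnion_comp]
    exact glue_iUnion_L h0 fun i => hA (φ i)

end Mix

section Backward

variable {lam : Cardinal.{0}}

lemma glue_sigma (h0 : ℵ₀ < lam) (hreg : lam.IsRegular) (hpow : 2 ^< lam = lam)
    {X : Set (GSpace lam)} {Y : Type} [TopologicalSpace Y] {ξ : Ordinal.{0}} {A : Set X}
    (hA : SigmaClass lam ξ A) : Glue lam Y A := by
  induction hA with
  | base U hU =>
    obtain ⟨J, hJ, V, hV, rfl⟩ := pieces h0 hreg hpow hU
    exact glue_iUnion h0 hJ fun j => glue_clopen (hV j)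
  | union ξ hξ I hI η A h1 h2 hA ih =>
    refine glue_iUnion h0 hI fun i => ?_
    have := glue_compl (ih i)
    rwa [compl_compl] at this

/-- the restriction of a point. -/
def rst (a : lam.ord.ToType) (y : GSpace lam) : Iio a → lam.ord.ToType := fun b => y b

lemma backward (h0 : ℵ₀ < lam) (hreg : lam.IsRegular) (hpow : 2 ^< lam = lam)
    {X Y : Set (GSpace lam)} {f : X → Y}
    (hf : ∀ U : Set Y, IsOpen U → LamBorel lam (f ⁻¹' U)) : LimClass lam f := by
  classical
  rcases isEmpty_or_nonempty X with hX | ⟨⟨x0⟩⟩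
  · exact LimClass.cont f (by
      rw [continuous_iff_continuousAt]
      intro x
      exact (hX.false x).elim)
  have hne := nonempty_L h0
  have hnm : NoMaxOrder lam.ord.ToType := Cardinal.noMaxOrder h0.le
  -- representatives
  let rep : (a : lam.ord.ToType) → (Iio a → lam.ord.ToType) → Y := fun a c =>
    if h : ∃ y : Y, rst a y.1 = c then h.choose else f x0
  have hrep : ∀ a (y : Y), rst a (rep a (rst a y.1)).1 = rst a y.1 := by
    intro a y
    have h : ∃ y' : Y, rst a y'.1 = rst a y.1 := ⟨y, rfl⟩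
    simp only [rep, dif_pos h]
    exact h.choose_spec
  let F : lam.ord.ToType → X → Y := fun a x => rep a (rst a (f x).1)
  have hF : ∀ a, LimClass lam (F a) := by
    intro a
    obtain ⟨e, he⟩ : ∃ e : lam.ord.ToType → (Iio a → lam.ord.ToType),
        Function.Surjective e := by
      have hle : #(Iio a → lam.ord.ToType) ≤ #(lam.ord.ToType) := by
        rw [Cardinal.mk_toType lam.ord, Cardinal.card_ord]
        exact card_functions h0 hreg hpow a
      obtain ⟨ψ⟩ := hle
      exact ⟨Function.invFun ψ, Function.invFun_surjective ψ.injective⟩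
    let Pc : lam.ord.ToType → Set X := fun i => {x | rst a (f x).1 = e i}
    have hPc : ∀ i, Glue lam Y (Pc i) := by
      intro i
      obtain ⟨z, hz⟩ := exists_N (⟨a, e i⟩ : Σ a : lam.ord.ToType, (Iio a → lam.ord.ToType))
      have e1 : Pc i = f ⁻¹' (Subtype.val ⁻¹' Bs ⟨a, e i⟩) := by
        ext x
        constructor
        · intro hx b
          exact congrFun hx b
        · intro hx
          funext b
          exact hx b
      rw [e1]
      obtain ⟨ξ, -, -, h3⟩ := hf (Subtype.val ⁻¹' Bs ⟨a, e i⟩) (by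
        rw [hz]; exact (isOpen_N z _).preimage continuous_subtype_val)
      exact glue_sigma h0 hreg hpow h3
    have key : LimClass lam (mix (⋃ i ∈ (univ : Set lam.ord.ToType), Pc i) (F a)
        (fun _ => f x0)) := by
      refine scheme h0 (fun D => LimClass lam (mix (⋃ i ∈ D, Pc i) (F a) (fun _ => f x0)))
        ?_ ?_ ?_
      · have e1 : mix (⋃ i ∈ (∅ : Set lam.ord.ToType), Pc i) (F a) (fun _ => f x0) =
            fun _ => f x0 := by
          funext x
          exact mix_of_notMem (by simp)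
        show LimClass lam (mix (⋃ i ∈ (∅ : Set lam.ord.ToType), Pc i) (F a) (fun _ => f x0))
        rw [e1]
        exact LimClass.cont _ continuous_const
      · intro j hj
        have e1 : mix (⋃ i ∈ Iic j, Pc i) (F a) (fun _ => f x0) =
            mix (Pc j) (fun _ => rep a (e j)) (mix (⋃ i ∈ Iio j, Pc i) (F a)
              (fun _ => f x0)) := by
          funext x
          by_cases hx : x ∈ Pc j
          · rw [mix_of_mem hx, mix_of_mem (mem_iUnion₂.2 ⟨j, mem_Iic.2 le_rfl, hx⟩)]
            show rep a (rst a (f x).1) = rep a (e j)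
            rw [show rst a (f x).1 = e j from hx]
          · rw [mix_of_notMem hx]
            by_cases hx' : x ∈ ⋃ i ∈ Iio j, Pc i
            · obtain ⟨i, hi, hxi⟩ := mem_iUnion₂.1 hx'
              rw [mix_of_mem hx', mix_of_mem (show x ∈ ⋃ i ∈ Iic j, Pc i from
                mem_iUnion₂.2 ⟨i, mem_Iic.2 (le_of_lt hi), hxi⟩)]
            · have hx'' : x ∉ ⋃ i ∈ Iic j, Pc i := by
                intro hc
                obtain ⟨i, hi, hxi⟩ := mem_iUnion₂.1 hc
                rcases (mem_Iic.1 hi).lt_or_eq with h | h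
                · exact hx' (mem_iUnion₂.2 ⟨i, h, hxi⟩)
                · rw [h] at hxi; exact hx hxi
              rw [mix_of_notMem hx', mix_of_notMem hx'']
        show LimClass lam (mix (⋃ i ∈ Iic j, Pc i) (F a) (fun _ => f x0))
        rw [e1]
        exact hPc j _ _ (LimClass.cont _ continuous_const) hj
      · intro D hDne hlow hmax ih
        refine limit_lower hDne hmax (F := fun j => mix (⋃ i ∈ Iic j, Pc i) (F a)
          (fun _ => f x0)) ih fun x => ?_
        by_cases hx : x ∈ ⋃ i ∈ D, Pc i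
        · obtain ⟨i, hi, hxi⟩ := mem_iUnion₂.1 hx
          refine ⟨i, hi, fun j _ hij => ?_⟩
          rw [mix_of_mem hx, mix_of_mem (mem_iUnion₂.2 ⟨i, hij, hxi⟩)]
        · obtain ⟨i, hi⟩ := hDne
          refine ⟨i, hi, fun j hj _ => ?_⟩
          have : x ∉ ⋃ k ∈ Iic j, Pc k := by
            intro hc
            obtain ⟨k, hk, hxk⟩ := mem_iUnion₂.1 hc
            exact hx (mem_iUnion₂.2 ⟨k, hlow j hj k hk, hxk⟩)
          rw [mix_of_notMem hx, mix_of_notMem this]
    have e2 : mix (⋃ i ∈ (univ : Set lam.ord.ToType), Pc i) (F a) (fun _ => f x0) = F a := by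
      funext x
      obtain ⟨i, hi⟩ := he (rst a (f x).1)
      exact mix_of_mem (mem_iUnion₂.2 ⟨i, mem_univ _, hi.symm⟩)
    rw [e2] at key
    exact key
  refine limit_wo (α := lam.ord.ToType) (by rw [Cardinal.mk_toType, Cardinal.card_ord]) hF
    fun x => ?_
  rw [tendsto_nhds]
  intro U hU hx
  obtain ⟨W, hW, rfl⟩ := isOpen_induced_iff.1 hU
  obtain ⟨a, ha⟩ := basis hne hW (f x).1 hx
  filter_upwards [eventually_ge_atTop a] with b hb
  apply ha
  intro c hc
  have h1 := hrep b (f x)
  exact congrFun h1 ⟨c, lt_of_lt_of_le hc hb⟩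

end Backward

/-- For an uncountable regular cardinal `λ` with `2^{<λ} = λ` and subspaces `X`, `Y` of the
generalized Baire space of `λ`, a function from `X` to `Y` is `λ⁺`-Borel measurable if and only
if it belongs to the smallest class that contains the continuous functions and is closed under
`κ`-limits for all regular `κ ≤ λ`. -/
theorem result (lam : Cardinal.{0}) (h0 : ℵ₀ < lam) (hreg : lam.IsRegular)
    (hpow : 2 ^< lam = lam) (X Y : Set (GSpace lam)) (f : X → Y) :
    (∀ U : Set Y, IsOpen U → LamBorel lam (f ⁻¹' U)) ↔ LimClass lam f :=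
  ⟨backward h0 hreg hpow, forward h0 hreg hpow⟩

end Pool.Agent.Results.MP_f4bae3_lc.SequentialLimits
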